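import Pool.Agent.Helper62.NT.Goals

/-!
# Project NT (MP_8ff381_an), packet SLB
-/

set_option autoImplicit false

namespace Pool.Agent.Helper41.NT.SLB

open Pool.Agent.Helper62.NT

variable {H : Type} [MetricSpace H]

lemma s_pos (D : CD H) (n : ℕ) : 0 < D.s n := by
  have hB : (0 : ℝ) < D.B := by
    have := D.hB
    exact_mod_cast (by omega : 0 < D.B)
  exact div_pos D.hΔ (pow_pos hB n)

lemma s_mul (D : CD H) {m n : ℕ} (h : m ≤ n) : D.s m = ((D.B ^ (n - m) : ℕ) : ℝ) * D.s n := by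
  have hB : (D.B : ℝ) ≠ 0 := by
    have := D.hB
    exact_mod_cast (by omega : D.B ≠ 0)
  obtain ⟨j, rfl⟩ := Nat.exists_eq_add_of_le h
  rw [CD.s, CD.s, Nat.add_sub_cancel_left, pow_add, Nat.cast_pow]
  field_simp

/-- multiples: if `k s_n < (k'+1) s_m`, `m ≤ n`, then `(k+1) s_n ≤ (k'+1) s_m` -/
lemma mult (D : CD H) {m n : ℕ} (h : m ≤ n) (k k' : ℕ) (hlt : (k : ℝ) * D.s n < ((k' : ℝ) + 1) * D.s m) :
    ((k : ℝ) + 1) * D.s n ≤ ((k' : ℝ) + 1) * D.s m := by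
  have hs := s_pos D n
  rw [s_mul D h, ← mul_assoc] at hlt ⊢
  have h1 : (k : ℝ) < ((k' : ℝ) + 1) * ((D.B ^ (n - m) : ℕ) : ℝ) := lt_of_mul_lt_mul_right hlt hs.le
  have h2 : k < (k' + 1) * D.B ^ (n - m) := by exact_mod_cast h1
  have h3 : ((k : ℝ) + 1) ≤ ((k' : ℝ) + 1) * ((D.B ^ (n - m) : ℕ) : ℝ) := by exact_mod_cast h2
  exact mul_le_mul_of_nonneg_right h3 hs.le

theorem t (hRTB : S_RTB) (hLOC : S_LOC) (hPRJ : S_PRJ) : S_SLB := by
  classical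
  intro H _ D x y n k hn hk hx hcut hgp
  obtain ⟨-, -, rtb3, -, -, -, rtb7, -⟩ := hRTB H D.R
  obtain ⟨loc1, loc2, -⟩ := hLOC H D
  have hs : ∀ m, 0 < D.s m := s_pos D
  set q : H := D.R.res x ((k + 1) * D.s n) with hq
  have hk0 : (0 : ℝ) ≤ (k : ℝ) * D.s n := mul_nonneg (Nat.cast_nonneg _) (hs n).le
  have hkk : (k : ℝ) * D.s n < (k + 1) * D.s n := by nlinarith [hs n]
  have hq0 : (0 : ℝ) ≤ (k + 1) * D.s n := hk0.trans hkk.le
  obtain ⟨hqx, hqg, -⟩ := rtb3 x _ hq0 hx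
  have hdq : D.R.dep q = (k + 1) * D.s n := D.R.dep_res x _ hq0 hx
  -- candidates
  have hex : ∃ m, 1 ≤ m ∧ ∃ k' : ℕ, 1 ≤ k' ∧ (k' : ℝ) * D.s m ≤ k * D.s n ∧ (k : ℝ) * D.s n < (k' + 1) * D.s m ∧
      D.conn (D.R.res x (k' * D.s m)) q := by
    refine ⟨n, hn, k, hk, le_rfl, hkk, ?_, ?_⟩
    · refine rtb7 _ _ x (rtb3 x _ hk0 (hkk.le.trans hx)).1 hqx ?_
      rw [D.R.dep_res x _ hk0 (hkk.le.trans hx), hdq]
      exact hkk.le
    · intro m z hz1 hz2 hc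
      rw [D.R.dep_res x _ hk0 (hkk.le.trans hx)] at hz1
      rw [hdq] at hz2
      refine hcut m z hz1 hz2 (loc1 m q x z ?_ hc)
      rw [D.R.gp_comm, hqg]
      exact hz2
  set n' := Nat.find hex with hn'
  obtain ⟨hn1, k', hk1, hle, hlt, hconn⟩ := Nat.find_spec hex
  rw [← hn'] at hn1 hle hlt hconn
  have hnn : n' ≤ n := by
    refine Nat.find_min' hex ⟨hn, k, hk, le_rfl, hkk, ?_, ?_⟩
    · refine rtb7 _ _ x (rtb3 x _ hk0 (hkk.le.trans hx)).1 hqx ?_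
      rw [D.R.dep_res x _ hk0 (hkk.le.trans hx), hdq]
      exact hkk.le
    · intro m z hz1 hz2 hc
      rw [D.R.dep_res x _ hk0 (hkk.le.trans hx)] at hz1
      rw [hdq] at hz2
      refine hcut m z hz1 hz2 (loc1 m q x z ?_ hc)
      rw [D.R.gp_comm, hqg]
      exact hz2
  have hv0 : (0 : ℝ) ≤ (k' : ℝ) * D.s n' := mul_nonneg (Nat.cast_nonneg _) (hs n').le
  have hvx : (k' : ℝ) * D.s n' ≤ D.R.dep x := hle.trans (hkk.le.trans hx)
  set v : H := D.R.res x (k' * D.s n') with hv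
  have hdv : D.R.dep v = k' * D.s n' := D.R.dep_res x _ hv0 hvx
  have hvle : D.R.le v x := (rtb3 x _ hv0 hvx).1
  have hlead : D.Lead (n', v) := by
    refine ⟨hn1, ⟨k', hk1, hdv⟩, ?_⟩
    intro n'' k'' h1 h2 h3 h4 h5 hc
    simp only at h2 h4 h5 hc
    rw [hdv] at h4 h5
    have h0 : (0 : ℝ) ≤ (k'' : ℝ) * D.s n'' := mul_nonneg (Nat.cast_nonneg _) (hs n'').le
    have h6 : D.R.res v (k'' * D.s n'') = D.R.res x (k'' * D.s n'') := D.R.res_res x _ _ h0 h4 hvx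
    rw [h6] at hc
    refine Nat.find_min hex h2 ⟨h1, k'', h3, h4.trans hle, ?_, loc2 _ _ _ hc hconn⟩
    exact hlt.trans_le (mult D h2.le k' k'' h5)
  obtain ⟨-, -, prj3, -⟩ := hPRJ H D (n', v) hlead
  have hex2 : (k + 1) * D.s n ≤ D.ex (n', v) x := by
    refine le_csSup ⟨D.R.dep x, fun t ht => ht.2.1⟩ ⟨?_, hx, ?_, hconn⟩
    · show D.R.dep v ≤ _
      rw [hdv]
      exact hle.trans hkk.le
    · show D.R.dep q ≤ D.R.dep v + D.s n'
      rw [hdq, hdv]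
      have := mult D hnn k k' hlt
      linarith
  refine ⟨(n', v), hlead, hvle, ?_, ?_⟩
  · show v ≠ x
    intro h
    have h1 : D.R.dep x = k' * D.s n' := by rw [← hdv, h]
    rw [h1] at hx
    exact absurd (hx.trans hle) (not_le.mpr hkk)
  · rw [prj3 x y]
    have h1 : (if D.R.le (n', v).2 x then max 0 (D.ex (n', v) x - max (D.R.gp x y) (D.R.dep (n', v).2)) else 0) =
        max 0 (D.ex (n', v) x - max (D.R.gp x y) (D.R.dep v)) := if_pos hvle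
    rw [h1]
    have h2 : 0 ≤ (if D.R.le (n', v).2 y then max 0 (D.ex (n', v) y - max (D.R.gp x y) (D.R.dep (n', v).2)) else 0) := by
      split_ifs
      · exact le_max_left _ _
      · exact le_rfl
    have h3 : max (D.R.gp x y) (D.R.dep v) ≤ k * D.s n := max_le hgp (by rw [hdv]; exact hle)
    have h4 := le_max_right (0 : ℝ) (D.ex (n', v) x - max (D.R.gp x y) (D.R.dep v))
    have h5 : ((k : ℝ) + 1) * D.s n = k * D.s n + D.s n := by ring
    linarith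

end Pool.Agent.Helper41.NT.SLB
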